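import Mathlib

set_option autoImplicit false

/-! # Project PG (helper378), task D: resultant of `f(x)` and `f(x + t)` -/

namespace Pool.Agent.H851R2.PG

open Polynomial

/-- coefficients of the shifted polynomial -/
theorem coeff_taylor_le (f : ℤ[X]) : ∃ K : ℤ, 1 ≤ K ∧ ∀ t : ℤ, ∀ k : ℕ,
    |(taylor t f).coeff k| ≤ K * (1 + |t|) ^ f.natDegree := by
  classical
  refine ⟨1 + ∑ k ∈ Finset.range (f.natDegree + 1), ∑ i ∈ (hasseDeriv k f).support,
    |(hasseDeriv k f).coeff i|, ?_, ?_⟩
  · have : 0 ≤ ∑ k ∈ Finset.range (f.natDegree + 1), ∑ i ∈ (hasseDeriv k f).support,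
      |(hasseDeriv k f).coeff i| := Finset.sum_nonneg fun k _ => Finset.sum_nonneg fun i _ => abs_nonneg _
    linarith
  · intro t k
    have ht : (1 : ℤ) ≤ 1 + |t| := by have := abs_nonneg t; linarith
    have hpow : (1 : ℤ) ≤ (1 + |t|) ^ f.natDegree := one_le_pow₀ ht
    have hnn : ∀ k, 0 ≤ ∑ i ∈ (hasseDeriv k f).support, |(hasseDeriv k f).coeff i| :=
      fun k => Finset.sum_nonneg fun i _ => abs_nonneg _
    have hS : 0 ≤ ∑ k ∈ Finset.range (f.natDegree + 1), ∑ i ∈ (hasseDeriv k f).support,
      |(hasseDeriv k f).coeff i| := Finset.sum_nonneg fun k _ => hnn k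
    by_cases hk : k ≤ f.natDegree
    · rw [taylor_coeff, eval_eq_sum, Polynomial.sum]
      have h1 : |∑ i ∈ (hasseDeriv k f).support, (hasseDeriv k f).coeff i * t ^ i| ≤
          ∑ i ∈ (hasseDeriv k f).support, |(hasseDeriv k f).coeff i| * (1 + |t|) ^ f.natDegree := by
        refine (Finset.abs_sum_le_sum_abs _ _).trans (Finset.sum_le_sum fun i hi => ?_)
        rw [abs_mul, abs_pow]
        refine mul_le_mul_of_nonneg_left ?_ (abs_nonneg _)
        have hi' : i ≤ f.natDegree := by
          have h2 := le_natDegree_of_mem_supp i hi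
          have h3 := natDegree_hasseDeriv_le f k
          omega
        calc |t| ^ i ≤ (1 + |t|) ^ i := pow_le_pow_left₀ (abs_nonneg _) (by linarith) _
          _ ≤ (1 + |t|) ^ f.natDegree := pow_le_pow_right₀ ht hi'
      refine h1.trans ?_
      rw [← Finset.sum_mul]
      refine mul_le_mul_of_nonneg_right ?_ (by linarith)
      have h4 : ∑ i ∈ (hasseDeriv k f).support, |(hasseDeriv k f).coeff i| ≤
          ∑ k ∈ Finset.range (f.natDegree + 1), ∑ i ∈ (hasseDeriv k f).support,
            |(hasseDeriv k f).coeff i| :=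
        Finset.single_le_sum (f := fun k => ∑ i ∈ (hasseDeriv k f).support,
          |(hasseDeriv k f).coeff i|) (fun k _ => hnn k) (by simpa using Nat.lt_succ_of_le hk)
      linarith
    · have h0 : (taylor t f).coeff k = 0 := by
        apply coeff_eq_zero_of_natDegree_lt
        rw [natDegree_taylor]
        omega
      rw [h0, abs_zero]
      positivity

theorem collision (f : ℤ[X]) (hf : Irreducible f) (hd : 1 ≤ f.natDegree) :
    ∃ A D : ℕ, ∀ t : ℤ, t ≠ 0 → ∃ s : ℤ, s ≠ 0 ∧ |s| ≤ A * (1 + |t|) ^ D ∧
      ∀ r q : ℤ, q ∣ f.eval r → q ∣ f.eval (r + t) → q ∣ s := by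
  classical
  obtain ⟨K, hK1, hK⟩ := coeff_taylor_le f
  set n := f.natDegree with hn
  refine ⟨(Nat.factorial (n + n)) * K.natAbs ^ (n + n), n * (n + n), ?_⟩
  intro t ht
  have hdeg : (taylor t f).natDegree = n := by rw [natDegree_taylor]
  refine ⟨resultant f (taylor t f) n n, ?_, ?_, ?_⟩
  · -- nonvanishing
    intro h0
    have hprim : f.IsPrimitive := hf.isPrimitive (by omega)
    have hirr : Irreducible (f.map (Int.castRingHom ℚ)) :=
      (IsPrimitive.Int.irreducible_iff_irreducible_map_cast hprim).1 hf
    set F : ℚ[X] := f.map (Int.castRingHom ℚ) with hF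
    have hFn : F.natDegree = n := by
      rw [hF, natDegree_map_eq_of_injective (Int.cast_injective (α := ℚ))]
    have hFG : (taylor t f).map (Int.castRingHom ℚ) = taylor (t : ℚ) F := by
      rw [hF, map_taylor]
      simp
    have h1 : resultant F (taylor (t : ℚ) F) n n = 0 := by
      rw [← hFG, hF, resultant_map_map, h0, map_zero]
    have h2 : resultant F (taylor (t : ℚ) F) = 0 := by
      have hG : (taylor (t : ℚ) F).natDegree = n := by rw [natDegree_taylor, hFn]
      rw [hFn, hG]
      exact h1
    rw [resultant_eq_zero_iff] at h2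
    have h3 : F ∣ taylor (t : ℚ) F := by
      by_contra h4
      exact h2.2 ((hirr.coprime_iff_not_dvd).2 h4)
    obtain ⟨u, hu⟩ := h3
    have hF0 : F ≠ 0 := hirr.ne_zero
    have hu0 : u ≠ 0 := by
      rintro rfl
      rw [mul_zero] at hu
      have : (taylor (t : ℚ) F).natDegree = 0 := by rw [hu]; simp
      rw [natDegree_taylor, hFn] at this
      omega
    have hud : u.natDegree = 0 := by
      have h5 := congrArg natDegree hu
      rw [natDegree_taylor, natDegree_mul hF0 hu0] at h5
      omega
    obtain ⟨c, rfl⟩ := natDegree_eq_zero.1 hud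
    have hc : c = 1 := by
      have h6 := congrArg leadingCoeff hu
      rw [leadingCoeff_mul, leadingCoeff_C, leadingCoeff_taylor] at h6
      have h7 : F.leadingCoeff ≠ 0 := leadingCoeff_ne_zero.2 hF0
      have : F.leadingCoeff * (c - 1) = 0 := by linear_combination -h6
      rcases mul_eq_zero.1 this with h | h
      · exact absurd h h7
      · linarith
    rw [hc, C_1, mul_one] at hu
    -- periodicity
    have hper : ∀ x : ℚ, F.eval (x + t) = F.eval x := by
      intro x
      have h8 := congrArg (eval x) hu
      rw [taylor_eval] at h8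
      rw [← h8]
    have hper2 : ∀ k : ℕ, F.eval ((k : ℚ) * t) = F.eval 0 := by
      intro k
      induction k with
      | zero => simp
      | succ k ih =>
        rw [← ih, ← hper ((k : ℚ) * t)]
        congr 1
        push_cast
        ring
    have hz : F - C (F.eval 0) = 0 := by
      apply Polynomial.eq_zero_of_infinite_isRoot
      have hinj : Function.Injective (fun k : ℕ => (k : ℚ) * t) := by
        intro a b hab
        have ht' : (t : ℚ) ≠ 0 := by exact_mod_cast ht
        have := mul_right_cancel₀ ht' hab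
        exact_mod_cast this
      refine Set.Infinite.mono ?_ (Set.infinite_range_of_injective hinj)
      rintro _ ⟨k, rfl⟩
      show IsRoot _ _
      rw [IsRoot.def, eval_sub, eval_C, hper2, sub_self]
    have h9 : F.natDegree = 0 := by
      rw [sub_eq_zero.1 hz]
      exact natDegree_C _
    omega
  · -- size
    have ht1 : (1 : ℤ) ≤ 1 + |t| := by have := abs_nonneg t; linarith
    have hB : ∀ i j, (AbsoluteValue.abs : AbsoluteValue ℤ ℤ) (sylvester f (taylor t f) n n i j) ≤
        K * (1 + |t|) ^ n := by
      intro i j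
      have hpos : 0 ≤ K * (1 + |t|) ^ n := by positivity
      have hf0 : ∀ k, |f.coeff k| ≤ K * (1 + |t|) ^ n := by
        intro k
        have h1 := hK 0 k
        rw [taylor_zero] at h1
        simp only [abs_zero, add_zero, one_pow, mul_one] at h1
        refine h1.trans ?_
        have : (1 : ℤ) ≤ (1 + |t|) ^ n := one_le_pow₀ ht1
        nlinarith
      rw [AbsoluteValue.abs_apply]
      unfold sylvester
      rw [Matrix.of_apply]
      induction j using Fin.addCases with
      | left j₁ =>
        rw [Fin.addCases_left]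
        split_ifs
        · exact hK t _
        · rw [abs_zero]; exact hpos
      | right j₁ =>
        rw [Fin.addCases_right]
        split_ifs
        · exact hf0 _
        · rw [abs_zero]; exact hpos
    have h2 := Matrix.det_le (A := sylvester f (taylor t f) n n)
      (abv := (AbsoluteValue.abs : AbsoluteValue ℤ ℤ)) hB
    rw [AbsoluteValue.abs_apply, Fintype.card_fin, mul_pow, ← pow_mul] at h2
    unfold resultant
    refine h2.trans (le_of_eq ?_)
    rw [nsmul_eq_mul]
    push_cast
    rw [abs_of_nonneg (by linarith : (0 : ℤ) ≤ K)]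
    ring
  · -- divisibility
    intro r q h1 h2
    obtain ⟨a, b, -, -, hab⟩ := exists_mul_add_mul_eq_C_resultant (m := n) (n := n) f (taylor t f)
      le_rfl hdeg.le (Or.inl (by omega))
    have h3 := congrArg (eval r) hab
    rw [eval_add, eval_mul, eval_mul, eval_C, taylor_eval] at h3
    rw [← h3]
    exact dvd_add (Dvd.dvd.mul_right h1 _) (Dvd.dvd.mul_right h2 _)

end Pool.Agent.H851R2.PG
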